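import Pool.Agent.helper19.AR.Defs2

/-!
# AR (MP_962e14_co): module CVa, existence of the cyclic cover
-/

namespace Pool.Agent.helper19.AR

open Classical in
/-- the edges of the cover -/
noncomputable def CVa_E {α β : Type} (r N k : ℕ) (S : Sys α β) (u : ℕ → α) (c : ℕ → β)
    (a : β × ZMod k) : Finset (Sym2 (α × ZMod k)) :=
  if h : ∃ j, j < N ∧ a.1 = c j then
    (Finset.Icc 1 r).image (fun t => s((u h.choose, a.2),
      (u (h.choose + t), if h.choose + t < N then a.2 else a.2 + 1)))
  else (S.E a.1).image (Sym2.map (fun x => (x, a.2)))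

theorem CVa_mem_in {α β : Type} (r N k : ℕ) (S : Sys α β) (u : ℕ → α) (c : ℕ → β)
    (hP : Perf r N S u c) (j : ℕ) (hj : j < N) (i : ZMod k) (e : Sym2 (α × ZMod k)) :
    e ∈ CVa_E r N k S u c (c j, i) ↔
    ∃ t, 1 ≤ t ∧ t ≤ r ∧ e = s((u j, i), (u (j + t), if j + t < N then i else i + 1)) := by
  classical
  have h : ∃ j', j' < N ∧ (c j, i).1 = c j' := ⟨j, hj, rfl⟩
  have hch : h.choose = j := by
    have h1 := h.choose_spec
    exact (hP.c_inj j hj h.choose h1.1 h1.2).symm
  unfold CVa_E
  rw [dif_pos h, hch]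
  simp only [Finset.mem_image, Finset.mem_Icc]
  constructor
  · rintro ⟨t, ⟨h1, h2⟩, rfl⟩
    exact ⟨t, h1, h2, rfl⟩
  · rintro ⟨t, h1, h2, rfl⟩
    exact ⟨t, ⟨h1, h2⟩, rfl⟩

theorem CVa_mem_ne {α β : Type} (r N k : ℕ) (S : Sys α β) (u : ℕ → α) (c : ℕ → β)
    (a : β) (ha : ∀ j < N, a ≠ c j) (i : ZMod k) (e : Sym2 (α × ZMod k)) :
    e ∈ CVa_E r N k S u c (a, i) ↔ ∃ x y, s(x, y) ∈ S.E a ∧ e = s((x, i), (y, i)) := by
  classical
  have h : ¬ ∃ j', j' < N ∧ (a, i).1 = c j' := by
    rintro ⟨j', h1, h2⟩
    exact ha j' h1 h2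
  unfold CVa_E
  rw [dif_neg h]
  simp only [Finset.mem_image]
  constructor
  · rintro ⟨e', he', rfl⟩
    induction e' with
    | _ x y => exact ⟨x, y, he', by rw [Sym2.map_mk]⟩
  · rintro ⟨x, y, hxy, rfl⟩
    exact ⟨s(x, y), hxy, by rw [Sym2.map_mk]⟩

/-- module CVa: existence of the cover -/
theorem CVa {α β : Type} [DecidableEq α] [DecidableEq β] (r N k : ℕ) [NeZero k] (hr : 2 ≤ r)
    (S : Sys α β) (u : ℕ → α) (c : ℕ → β) (hG : Good r S) (hP : Perf r N S u c) :
    ∃ S' : Sys (α × ZMod k) (β × ZMod k), IsCover r N k S S' u c ∧ Good r S' ∧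
      S'.V.card = k * S.V.card := by
  classical
  have hVc : (S.V ×ˢ (Finset.univ : Finset (ZMod k))).card = k * S.V.card := by
    rw [Finset.card_product, Finset.card_univ, ZMod.card]
    ring
  have hCc : (S.C ×ˢ (Finset.univ : Finset (ZMod k))).card = k * S.C.card := by
    rw [Finset.card_product, Finset.card_univ, ZMod.card]
    ring
  refine ⟨⟨S.V ×ˢ Finset.univ, S.C ×ˢ Finset.univ, CVa_E r N k S u c⟩, ⟨?_, ?_, ?_, ?_⟩,
    ⟨?_, ?_⟩, hVc⟩
  · intro x i
    simp only [Finset.mem_product, Finset.mem_univ, and_true]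
  · intro a i
    simp only [Finset.mem_product, Finset.mem_univ, and_true]
  · intro a i ha e
    exact CVa_mem_ne r N k S u c a ha i e
  · intro j hj i e
    exact CVa_mem_in r N k S u c hP j hj i e
  · change (S.C ×ˢ (Finset.univ : Finset (ZMod k))).card =
      (S.V ×ˢ (Finset.univ : Finset (ZMod k))).card
    rw [hVc, hCc, hG.1]
  · rintro ⟨a, i⟩ ha
    have haC : a ∈ S.C := by
      have h1 : (a, i) ∈ S.C ×ˢ (Finset.univ : Finset (ZMod k)) := ha
      exact (Finset.mem_product.mp h1).1
    change (CVa_E r N k S u c (a, i)).card = r ∧ ∀ e ∈ CVa_E r N k S u c (a, i),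
      ¬ e.IsDiag ∧ ∀ x ∈ e, x ∈ S.V ×ˢ (Finset.univ : Finset (ZMod k))
    by_cases hst : ∃ j, j < N ∧ a = c j
    · obtain ⟨j, hj, rfl⟩ := hst
      have hne : ∀ t, 1 ≤ t → t ≤ r → u j ≠ u (j + t) := by
        intro t ht1 htr h
        have := hP.u_inj j (by omega) (j + t) (by omega) h
        omega
      constructor
      · have himg : CVa_E r N k S u c (c j, i) = (Finset.Icc 1 r).image
            (fun t => s((u j, i), (u (j + t), if j + t < N then i else i + 1))) := by
          ext e
          rw [CVa_mem_in r N k S u c hP j hj i e]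
          simp only [Finset.mem_image, Finset.mem_Icc]
          constructor
          · rintro ⟨t, h1, h2, rfl⟩
            exact ⟨t, ⟨h1, h2⟩, rfl⟩
          · rintro ⟨t, ⟨h1, h2⟩, rfl⟩
            exact ⟨t, h1, h2, rfl⟩
        rw [himg, Finset.card_image_of_injOn, Nat.card_Icc]
        · omega
        · intro t ht t' ht' htt
          have h1 := Finset.mem_Icc.mp (Finset.mem_coe.mp ht)
          have h2 := Finset.mem_Icc.mp (Finset.mem_coe.mp ht')
          simp only [Sym2.eq_iff, Prod.mk.injEq, true_and] at htt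
          rcases htt with htt | htt
          · have := hP.u_inj (j + t) (by omega) (j + t') (by omega) htt.1
            omega
          · exact absurd htt.1.1 (hne t' h2.1 h2.2)
      · intro e he
        rw [CVa_mem_in r N k S u c hP j hj i e] at he
        obtain ⟨t, ht1, htr, rfl⟩ := he
        constructor
        · rw [Sym2.mk_isDiag_iff]
          intro h
          exact hne t ht1 htr (congrArg Prod.fst h)
        · intro x hx
          rw [Sym2.mem_iff] at hx
          rw [Finset.mem_product]
          refine ⟨?_, Finset.mem_univ _⟩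
          rcases hx with rfl | rfl
          · exact hP.u_mem j (by omega)
          · exact hP.u_mem (j + t) (by omega)
    · have hst' : ∀ j < N, a ≠ c j := fun j hj h => hst ⟨j, hj, h⟩
      obtain ⟨hcard, hedge⟩ := hG.2 a haC
      constructor
      · have himg : CVa_E r N k S u c (a, i) = (S.E a).image (Sym2.map (fun x => (x, i))) := by
          have h : ¬ ∃ j', j' < N ∧ (a, i).1 = c j' := by
            rintro ⟨j', h1, h2⟩
            exact hst' j' h1 h2
          unfold CVa_E
          rw [dif_neg h]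
          ext e
          simp only [Finset.mem_image]
        rw [himg, Finset.card_image_of_injective, hcard]
        exact Sym2.map.injective (fun x y h => congrArg Prod.fst h)
      · intro e he
        rw [CVa_mem_ne r N k S u c a hst' i e] at he
        obtain ⟨x, y, hxy, rfl⟩ := he
        obtain ⟨hd, hm⟩ := hedge _ hxy
        constructor
        · rw [Sym2.mk_isDiag_iff]
          intro h
          apply hd
          rw [Sym2.mk_isDiag_iff]
          exact congrArg Prod.fst h
        · intro z hz
          rw [Sym2.mem_iff] at hz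
          rw [Finset.mem_product]
          refine ⟨?_, Finset.mem_univ _⟩
          rcases hz with rfl | rfl
          · exact hm x (Sym2.mem_mk_left x y)
          · exact hm y (Sym2.mem_mk_right x y)

end Pool.Agent.helper19.AR
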