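import Pool.Agent.helper19.AR.Defs2
import Pool.Agent.helper36.AR.ELcp

/-!
# AR (MP_962e14_co): module CVl, the inequality of one level
-/

namespace Pool.Agent.helper19.AR

theorem CVl_mem_col {α β : Type} (S : Sys α β) (A : Finset α) (a : β) :
    a ∈ col S A ↔ a ∈ S.C ∧ ∃ e ∈ S.E a, ∀ x ∈ e, x ∈ A := by
  classical
  unfold col
  rw [Finset.mem_filter]

/-- module CVl: the inequality of one level -/
theorem CVl {α β : Type} [DecidableEq α] [DecidableEq β] (r N ℓ : ℕ) (hr : 2 ≤ r) (hN : r < N)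
    (S : Sys α β) (u : ℕ → α) (c : ℕ → β) (hG : Good r S) (hP : Perf r N S u c)
    (hS : Sparse S ℓ) (H : Finset α) (hH : H ⊆ S.V) (hHu : ∀ j < N, u j ∉ H) (J Y' : Finset ℕ)
    (hJ : J ⊆ Finset.range N) (hJr : ∃ x ∈ J, x < r) (F : Finset β)
    (hF : ∀ a ∈ F, a ∈ S.C ∧ (∀ j < N, a ≠ c j) ∧
      ∃ e ∈ S.E a, ∀ x ∈ e, x ∈ H ∨ ∃ j ∈ J, x = u j)
    (hFH : F.card = H.card)
    (hJa : ∀ x ∈ J, ∃ t, 1 ≤ t ∧ t ≤ r ∧ (x + t ∈ J ∨ (N ≤ x + t ∧ x + t - N ∈ Y'))) :
    ∃ τ' ∈ Y', τ' < r ∧ ∀ τ < r, u (N + τ) ∈ H →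
      r * ℓ + 1 + τ' ≤ r * (H.card + J.card) + τ := by
  have hJlt : ∀ j ∈ J, j < N := fun j hj => Finset.mem_range.mp (hJ hj)
  set J0 := J.filter (fun z => z < r) with hJ0
  have hJ0ne : J0.Nonempty := by
    obtain ⟨x, hx, hxr⟩ := hJr
    exact ⟨x, Finset.mem_filter.mpr ⟨hx, hxr⟩⟩
  obtain ⟨x0, hx0, hx0max⟩ : ∃ x0 ∈ J0, ∀ z ∈ J0, z ≤ x0 :=
    ⟨J0.max' hJ0ne, J0.max'_mem hJ0ne, fun z hz => J0.le_max' z hz⟩
  obtain ⟨hx0J, hx0r⟩ := Finset.mem_filter.mp hx0
  obtain ⟨τ', hτ'Y, hτ'r, hτ'⟩ := ELc r N J Y' hJ hJa x0 hx0J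
  have hcard : (J.filter fun z => x0 ≤ z).card + J0.card = J.card + 1 := by
    have h1 : (J.filter fun z => x0 ≤ z) = insert x0 (J.filter fun z => ¬ z < r) := by
      ext z
      simp only [Finset.mem_filter, Finset.mem_insert]
      constructor
      · rintro ⟨hz, hz0⟩
        by_cases hzr : z < r
        · left
          exact le_antisymm (hx0max z (Finset.mem_filter.mpr ⟨hz, hzr⟩)) hz0
        · right
          exact ⟨hz, hzr⟩
      · rintro (rfl | ⟨hz, hzr⟩)
        · exact ⟨hx0J, le_rfl⟩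
        · exact ⟨hz, by omega⟩
    have h2 : x0 ∉ J.filter fun z => ¬ z < r := by
      intro h
      exact (Finset.mem_filter.mp h).2 hx0r
    rw [h1, Finset.card_insert_of_notMem h2]
    have h3 := Finset.card_filter_add_card_filter_not (s := J) (fun z => z < r)
    rw [← hJ0] at h3
    omega
  refine ⟨τ', hτ'Y, hτ'r, fun τ hτ hu => ?_⟩
  obtain ⟨W, hWsub, hWc, hW⟩ := ELp r N x0 τ (by omega) hN hx0r hτ
  have hWlt : ∀ z ∈ W, r ≤ z ∧ z < N := fun z hz => Finset.mem_Ico.mp (hWsub hz)
  set B : Finset α := H ∪ J0.image u ∪ W.image u with hB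
  have hBV : B ⊆ S.V := by
    intro x hx
    rw [hB, Finset.mem_union, Finset.mem_union] at hx
    rcases hx with (hx | hx) | hx
    · exact hH hx
    · obtain ⟨j, hj, rfl⟩ := Finset.mem_image.mp hx
      have := hJlt j (Finset.mem_filter.mp hj).1
      exact hP.u_mem j (by omega)
    · obtain ⟨j, hj, rfl⟩ := Finset.mem_image.mp hx
      have := hWlt j hj
      exact hP.u_mem j (by omega)
  have hBc : B.card ≤ H.card + J0.card + W.card := by
    have h1 := Finset.card_union_le (H ∪ J0.image u) (W.image u)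
    have h2 := Finset.card_union_le H (J0.image u)
    have h3 : (J0.image u).card ≤ J0.card := Finset.card_image_le
    have h4 : (W.image u).card ≤ W.card := Finset.card_image_le
    rw [← hB] at h1
    omega
  have hBne : B.Nonempty :=
    ⟨u (N + τ), by rw [hB]; exact Finset.mem_union_left _ (Finset.mem_union_left _ hu)⟩
  have hBJ : ∀ j ∈ J0, u j ∈ B := fun j hj => by
    rw [hB]
    exact Finset.mem_union_left _ (Finset.mem_union_right _ (Finset.mem_image_of_mem u hj))
  have hBW : ∀ j ∈ W, u j ∈ B := fun j hj => by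
    rw [hB]
    exact Finset.mem_union_right _ (Finset.mem_image_of_mem u hj)
  have hBH : ∀ x ∈ H, x ∈ B := fun x hx => by
    rw [hB]
    exact Finset.mem_union_left _ (Finset.mem_union_left _ hx)
  -- a strand colour with an out-neighbour inside `B`
  have halive : ∀ z < N, u z ∈ B → (∃ t, 1 ≤ t ∧ t ≤ r ∧ u (z + t) ∈ B) → c z ∈ col S B := by
    rintro z hz hzB ⟨t, ht1, htr, ht⟩
    rw [CVl_mem_col]
    refine ⟨hP.c_mem z hz, s(u z, u (z + t)), (hP.c_E z hz _).mpr ⟨t, ht1, htr, rfl⟩, ?_⟩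
    intro x hx
    rw [Sym2.mem_iff] at hx
    rcases hx with rfl | rfl
    · exact hzB
    · exact ht
  have hsub : F ∪ (J0 ∪ W).image c ⊆ col S B := by
    intro a ha
    rw [Finset.mem_union] at ha
    rcases ha with ha | ha
    · obtain ⟨haC, hac, e, he, hex⟩ := hF a ha
      rw [CVl_mem_col]
      refine ⟨haC, e, he, ?_⟩
      intro x hx
      rcases hex x hx with h | ⟨j, hj, rfl⟩
      · exact hBH x h
      · by_cases hjr : j < r
        · exact hBJ j (Finset.mem_filter.mpr ⟨hj, hjr⟩)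
        · exact absurd hx (hP.clean a haC hac e he j (by omega) (hJlt j hj))
    · obtain ⟨z, hz, rfl⟩ := Finset.mem_image.mp ha
      rw [Finset.mem_union] at hz
      by_cases hzW : z ∈ insert x0 W
      · have hzN : z < N := by
          rcases hz with hz | hz
          · exact hJlt z (Finset.mem_filter.mp hz).1
          · exact (hWlt z hz).2
        have hzB : u z ∈ B := by
          rcases hz with hz | hz
          · exact hBJ z hz
          · exact hBW z hz
        obtain ⟨t, ht1, htr, ht⟩ := hW z hzW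
        refine halive z hzN hzB ⟨t, ht1, htr, ?_⟩
        rcases ht with ht | ht
        · exact hBW _ ht
        · rw [ht]
          exact hBH _ hu
      · have hzW' : z ≠ x0 ∧ z ∉ W := by
          rw [Finset.mem_insert] at hzW
          exact ⟨fun h => hzW (Or.inl h), fun h => hzW (Or.inr h)⟩
        have hz0 : z ∈ J0 := by
          rcases hz with hz | hz
          · exact hz
          · exact absurd hz hzW'.2
        have hzle := hx0max z hz0
        have hzlt : z < x0 := lt_of_le_of_ne hzle hzW'.1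
        refine halive z (hJlt z (Finset.mem_filter.mp hz0).1) (hBJ z hz0) ⟨x0 - z, by omega,
          by omega, ?_⟩
        rw [Nat.add_sub_cancel' hzle]
        exact hBJ x0 hx0
  have hdisjJW : Disjoint J0 W := by
    rw [Finset.disjoint_left]
    intro z hz hzW
    have h1 := (Finset.mem_filter.mp hz).2
    have h2 := (hWlt z hzW).1
    omega
  have hcc : (F ∪ (J0 ∪ W).image c).card = F.card + J0.card + W.card := by
    have hlt : ∀ z ∈ J0 ∪ W, z < N := by
      intro z hz
      rw [Finset.mem_union] at hz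
      rcases hz with hz | hz
      · exact hJlt z (Finset.mem_filter.mp hz).1
      · exact (hWlt z hz).2
    have hd : Disjoint F ((J0 ∪ W).image c) := by
      rw [Finset.disjoint_left]
      intro a ha ha'
      obtain ⟨z, hz, rfl⟩ := Finset.mem_image.mp ha'
      exact (hF _ ha).2.1 z (hlt z hz) rfl
    have hinj : Set.InjOn c ((J0 ∪ W : Finset ℕ) : Set ℕ) := by
      intro z hz z' hz' hzz
      exact hP.c_inj z (hlt z (Finset.mem_coe.mp hz)) z' (hlt z' (Finset.mem_coe.mp hz')) hzz
    rw [Finset.card_union_of_disjoint hd, Finset.card_image_of_injOn hinj,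
      Finset.card_union_of_disjoint hdisjJW]
    ring
  have hcol : F.card + J0.card + W.card ≤ (col S B).card := by
    rw [← hcc]
    exact Finset.card_le_card hsub
  have hℓB : ℓ + 1 ≤ B.card := by
    by_contra hcon
    have := hS B hBV hBne (by omega)
    omega
  have h1 : ℓ + 1 ≤ H.card + J0.card + W.card := le_trans hℓB hBc
  have h2 : r * (ℓ + 1) ≤ r * (H.card + J0.card + W.card) := Nat.mul_le_mul_left _ h1
  have h3 : r * ((J.filter fun z => x0 ≤ z).card + J0.card) = r * (J.card + 1) := by rw [hcard]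
  nlinarith [h2, h3, hτ', hWc]

end Pool.Agent.helper19.AR
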